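import Mathlib

/-!
# The argument of a quotient of products of linear factors with interlacing zeros
-/

set_option autoImplicit false

open MeasureTheory intervalIntegral Metric

namespace Pool.Agent.K3h58.ZD

noncomputable section

/-- the rotated point -/
def ww (z : ℂ) (x : ℝ) : ℂ := Complex.exp (-((x : ℂ) * Complex.I)) * z

/-- the normalised argument -/
def BB (z : ℂ) (x : ℝ) : ℝ := (Complex.log (1 - ww z x)).im + x / 2

/-- its derivative -/
def BD (z : ℂ) (x : ℝ) : ℝ := (ww z x / (1 - ww z x)).re + 1 / 2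

lemma norm_ww (z : ℂ) (x : ℝ) : ‖ww z x‖ = ‖z‖ := by
  unfold ww
  rw [norm_mul]
  have : ‖Complex.exp (-((x : ℂ) * Complex.I))‖ = 1 := by
    rw [show -((x : ℂ) * Complex.I) = ((-x : ℝ) : ℂ) * Complex.I by push_cast; ring]
    exact Complex.norm_exp_ofReal_mul_I _
  rw [this, one_mul]

lemma one_sub_re_pos {w : ℂ} (hw : ‖w‖ < 1) : 0 < (1 - w).re := by
  have h := Complex.abs_re_le_norm w
  rw [Complex.sub_re, Complex.one_re]
  have := (abs_le.mp h).2
  linarith

lemma one_sub_ne {w : ℂ} (hw : ‖w‖ < 1) : (1 : ℂ) - w ≠ 0 := by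
  intro h
  have := one_sub_re_pos hw
  rw [h] at this
  simp at this

lemma one_sub_slit {w : ℂ} (hw : ‖w‖ < 1) : (1 : ℂ) - w ∈ Complex.slitPlane :=
  Or.inl (one_sub_re_pos hw)

lemma hasDerivAt_ww (z : ℂ) (x : ℝ) :
    HasDerivAt (fun x : ℝ => ww z x) (-Complex.I * ww z x) x := by
  unfold ww
  have h1 : HasDerivAt (fun x : ℝ => (x : ℂ)) 1 x := Complex.ofRealCLM.hasDerivAt
  have h2 := (((h1.mul_const Complex.I).neg).cexp).mul_const z
  refine HasDerivAt.congr_deriv h2 ?_
  simp only [Pi.neg_apply]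
  ring

lemma continuous_ww (z : ℂ) : Continuous (ww z) := by
  unfold ww
  fun_prop

lemma hasDerivAt_BB {z : ℂ} (hz : ‖z‖ < 1) (x : ℝ) : HasDerivAt (BB z) (BD z x) x := by
  have hw : ‖ww z x‖ < 1 := by rw [norm_ww]; exact hz
  have h1 : HasDerivAt (fun x : ℝ => 1 - ww z x) (Complex.I * ww z x) x := by
    have := (hasDerivAt_ww z x).const_sub 1
    refine HasDerivAt.congr_deriv this ?_
    ring
  have h2 := h1.clog_real (one_sub_slit hw)
  have h3 := (Complex.imCLM.hasFDerivAt.comp_hasDerivAt x h2)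
  have h4 := h3.add ((hasDerivAt_id x).div_const 2)
  unfold BD
  refine HasDerivAt.congr_deriv h4 ?_
  rw [Complex.imCLM_apply, mul_div_assoc, Complex.I_mul_im]

lemma BD_nonneg {z : ℂ} (hz : ‖z‖ < 1) (x : ℝ) : 0 ≤ BD z x := by
  have hw : ‖ww z x‖ < 1 := by rw [norm_ww]; exact hz
  unfold BD
  set w := ww z x
  have h1 : w / (1 - w) + 1 / 2 = (1 + w) / (2 * (1 - w)) := by
    have := one_sub_ne hw
    field_simp
    ring
  have h2 : (w / (1 - w)).re + 1 / 2 = ((1 + w) / (2 * (1 - w))).re := by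
    rw [← h1]
    simp
  rw [h2, Complex.div_re]
  have h3 : 0 < Complex.normSq (2 * (1 - w)) := by
    rw [Complex.normSq_pos]
    exact mul_ne_zero two_ne_zero (one_sub_ne hw)
  rw [← add_div]
  apply div_nonneg _ h3.le
  have h4 : w.re * w.re + w.im * w.im < 1 := by
    have h5 : Complex.normSq w < 1 := by
      rw [Complex.normSq_eq_norm_sq]
      have := norm_nonneg w
      nlinarith
    rwa [Complex.normSq_apply] at h5
  simp only [Complex.add_re, Complex.one_re, Complex.mul_re, Complex.sub_re, Complex.sub_im,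
    Complex.add_im, Complex.one_im, Complex.mul_im]
  norm_num
  nlinarith

lemma continuous_BD {z : ℂ} (hz : ‖z‖ < 1) : Continuous (BD z) := by
  unfold BD
  have h1 : ∀ x, (1 : ℂ) - ww z x ≠ 0 := fun x => one_sub_ne (by rw [norm_ww]; exact hz)
  have h2 := continuous_ww z
  exact (Complex.continuous_re.comp (h2.div (continuous_const.sub h2) h1)).add continuous_const

lemma integral_BD {z : ℂ} (hz : ‖z‖ < 1) (a b : ℝ) : ∫ x in a..b, BD z x = BB z b - BB z a :=
  integral_eq_sub_of_hasDerivAt (fun x _ => hasDerivAt_BB hz x)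
    ((continuous_BD hz).intervalIntegrable _ _)

lemma ww_pi (z : ℂ) : ww z Real.pi = -z := by
  unfold ww
  rw [Complex.exp_neg, Complex.exp_pi_mul_I]
  norm_num

lemma ww_neg_pi (z : ℂ) : ww z (-Real.pi) = -z := by
  unfold ww
  rw [Complex.ofReal_neg, neg_mul, neg_neg, Complex.exp_pi_mul_I]
  ring

lemma BB_total (z : ℂ) : BB z Real.pi - BB z (-Real.pi) = Real.pi := by
  unfold BB
  rw [ww_pi, ww_neg_pi]
  ring

lemma BB_pi_abs {z : ℂ} (hz : ‖z‖ < 1) : |BB z Real.pi| ≤ Real.pi := by
  unfold BB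
  rw [ww_pi, Complex.log_im]
  have h1 : 0 ≤ (1 - -z).re := (one_sub_re_pos (by rw [norm_neg]; exact hz)).le
  have h2 := Complex.abs_arg_le_pi_div_two_iff.mpr h1
  rw [abs_le] at h2 ⊢
  constructor <;> linarith [h2.1, h2.2, Real.pi_pos]

lemma BB_eq {z : ℂ} (hz : ‖z‖ < 1) {a : ℝ} (h1 : -Real.pi ≤ a) (h2 : a ≤ Real.pi) :
    BB z a = BB z Real.pi - ∫ x in (-Real.pi)..Real.pi, (if a < x then BD z x else 0) := by
  have hint : ∀ c d : ℝ, IntervalIntegrable (fun x => if a < x then BD z x else 0) volume c d := by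
    intro c d
    have h3 : (fun x => if a < x then BD z x else 0) = Set.indicator (Set.Ioi a) (BD z) := by
      funext x
      simp [Set.indicator, Set.mem_Ioi]
    rw [h3]
    have h4 := (continuous_BD hz).intervalIntegrable (μ := volume) c d
    exact ⟨h4.1.indicator measurableSet_Ioi, h4.2.indicator measurableSet_Ioi⟩
  have h3 : ∫ x in (-Real.pi)..a, (if a < x then BD z x else 0) = 0 := by
    rw [intervalIntegral.integral_congr_ae (g := fun _ => (0 : ℝ))]
    · simp
    · refine Filter.Eventually.of_forall fun x hx => ?_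
      rw [Set.uIoc_of_le h1] at hx
      rw [if_neg (not_lt.mpr hx.2)]
  have h4 : ∫ x in a..Real.pi, (if a < x then BD z x else 0) = ∫ x in a..Real.pi, BD z x := by
    refine intervalIntegral.integral_congr_ae (Filter.Eventually.of_forall fun x hx => ?_)
    rw [Set.uIoc_of_le h2] at hx
    rw [if_pos hx.1]
  rw [← integral_add_adjacent_intervals (hint (-Real.pi) a) (hint a Real.pi), h3, h4,
    integral_BD hz]
  ring

variable {ι : Type*} [Fintype ι]

/-- the weight of the points below `x` -/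
def cnt (α m : ι → ℝ) (x : ℝ) : ℝ := ∑ i, if α i < x then m i else 0

lemma sum_BB {z : ℂ} (hz : ‖z‖ < 1) (α m : ι → ℝ) (hα : ∀ i, -Real.pi ≤ α i ∧ α i ≤ Real.pi)
    {D : ℝ} (hD : ∀ x, |cnt α m x| ≤ D) : |∑ i, m i * BB z (α i)| ≤ 2 * Real.pi * D := by
  have hD0 : 0 ≤ D := (abs_nonneg _).trans (hD 0)
  have h1 : ∑ i, m i * BB z (α i) = cnt α m (Real.pi + 1) * BB z Real.pi -
      ∫ x in (-Real.pi)..Real.pi, cnt α m x * BD z x := by
    have h2 : ∀ i, m i * BB z (α i) = m i * BB z Real.pi -
        ∫ x in (-Real.pi)..Real.pi, (if α i < x then m i else 0) * BD z x := by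
      intro i
      rw [BB_eq hz (hα i).1 (hα i).2, mul_sub, ← intervalIntegral.integral_const_mul]
      congr 1
      refine intervalIntegral.integral_congr fun x _ => ?_
      by_cases h : α i < x <;> simp [h]
    have h3 : cnt α m (Real.pi + 1) = ∑ i, m i := by
      unfold cnt
      refine Finset.sum_congr rfl fun i _ => if_pos ?_
      linarith [(hα i).2]
    rw [Finset.sum_congr rfl fun i _ => h2 i, Finset.sum_sub_distrib, h3, Finset.sum_mul]
    congr 1
    rw [← intervalIntegral.integral_finsetSum]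
    · refine intervalIntegral.integral_congr fun x _ => ?_
      exact (Finset.sum_mul _ _ _).symm
    · intro i _
      have h3 : (fun x => (if α i < x then m i else 0) * BD z x) =
          Set.indicator (Set.Ioi (α i)) (fun x => m i * BD z x) := by
        funext x
        by_cases h : α i < x <;> simp [Set.indicator, h]
      rw [h3]
      have h4 := ((continuous_BD hz).const_smul (m i)).intervalIntegrable (μ := volume)
        (-Real.pi) Real.pi
      exact ⟨h4.1.indicator measurableSet_Ioi, h4.2.indicator measurableSet_Ioi⟩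
  have h2 : |cnt α m (Real.pi + 1) * BB z Real.pi| ≤ D * Real.pi := by
    rw [abs_mul]
    exact mul_le_mul (hD _) (BB_pi_abs hz) (abs_nonneg _) hD0
  have h3 : |∫ x in (-Real.pi)..Real.pi, cnt α m x * BD z x| ≤ D * Real.pi := by
    have h4 : ‖∫ x in (-Real.pi)..Real.pi, cnt α m x * BD z x‖ ≤
        ∫ x in (-Real.pi)..Real.pi, D * BD z x := by
      refine intervalIntegral.norm_integral_le_of_norm_le (by linarith [Real.pi_pos])
        (Filter.Eventually.of_forall fun x _ => ?_)
        (((continuous_BD hz).const_smul D).intervalIntegrable _ _)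
      rw [norm_mul, Real.norm_eq_abs, Real.norm_eq_abs, abs_of_nonneg (BD_nonneg hz x)]
      exact mul_le_mul_of_nonneg_right (hD x) (BD_nonneg hz x)
    rw [intervalIntegral.integral_const_mul, integral_BD hz, BB_total] at h4
    exact h4
  rw [h1]
  calc |cnt α m (Real.pi + 1) * BB z Real.pi - ∫ x in (-Real.pi)..Real.pi, cnt α m x * BD z x|
      ≤ |cnt α m (Real.pi + 1) * BB z Real.pi| +
        |∫ x in (-Real.pi)..Real.pi, cnt α m x * BD z x| := abs_sub _ _
    _ ≤ D * Real.pi + D * Real.pi := add_le_add h2 h3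
    _ = 2 * Real.pi * D := by ring

/-- the logarithm of the quotient -/
def LL (α m : ι → ℝ) (z : ℂ) : ℂ := ∑ i, (m i : ℂ) * Complex.log (1 - ww z (α i))

/-- the constant -/
def gam (α m : ι → ℝ) : ℝ := ∑ i, m i * α i / 2

lemma LL_im {z : ℂ} (α m : ι → ℝ) : (LL α m z).im + gam α m = ∑ i, m i * BB z (α i) := by
  unfold LL gam BB
  rw [Complex.im_sum, ← Finset.sum_add_distrib]
  refine Finset.sum_congr rfl fun i _ => ?_
  rw [Complex.im_ofReal_mul]
  ring

end

end Pool.Agent.K3h58.ZD
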