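import Mathlib
import Pool.Agent.K3h58.ZD.Arg

/-!
# The mean of the positive part of the logarithm of the quotient
-/

set_option autoImplicit false

open MeasureTheory intervalIntegral Metric Filter Topology

namespace Pool.Agent.K3h58.ZD

noncomputable section

variable {ι : Type*} [Fintype ι]

/-- the logarithm of the absolute value of the quotient -/
def Lam (α m : ι → ℝ) (z : ℂ) : ℝ := ∑ i, m i * Real.log ‖1 - ww z (α i)‖

lemma LL_re (α m : ι → ℝ) (z : ℂ) : (LL α m z).re = Lam α m z := by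
  unfold LL Lam
  rw [Complex.re_sum]
  refine Finset.sum_congr rfl fun i _ => ?_
  rw [Complex.re_ofReal_mul, Complex.log_re]

lemma LL_zero (α m : ι → ℝ) : LL α m 0 = 0 := by
  unfold LL
  refine Finset.sum_eq_zero fun i _ => ?_
  simp [ww]

lemma LL_diff (α m : ι → ℝ) {z : ℂ} (hz : ‖z‖ < 1) : DifferentiableAt ℂ (LL α m) z := by
  unfold LL
  refine DifferentiableAt.fun_sum fun i _ => ?_
  refine DifferentiableAt.const_mul ?_ _
  refine DifferentiableAt.clog ?_ (one_sub_slit (by rw [norm_ww]; exact hz))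
  unfold ww
  fun_prop

/-- the power -/
def Phi (α m : ι → ℝ) (p : ℝ) (z : ℂ) : ℂ := Complex.exp (p * (LL α m z + gam α m * Complex.I))

lemma Phi_re (α m : ι → ℝ) (hα : ∀ i, -Real.pi ≤ α i ∧ α i ≤ Real.pi) {D : ℝ} (hD0 : 0 < D)
    (hD : ∀ x, |cnt α m x| ≤ D) {z : ℂ} (hz : ‖z‖ < 1) :
    Real.exp (1 / (6 * D) * Lam α m z) / 2 ≤ (Phi α m (1 / (6 * D)) z).re := by
  unfold Phi
  rw [Complex.exp_re]
  have h1 : (((1 / (6 * D) : ℝ) : ℂ) * (LL α m z + gam α m * Complex.I)).re =
      1 / (6 * D) * Lam α m z := by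
    rw [Complex.re_ofReal_mul, Complex.add_re, LL_re]
    simp
  have h2 : (((1 / (6 * D) : ℝ) : ℂ) * (LL α m z + gam α m * Complex.I)).im =
      1 / (6 * D) * ∑ i, m i * BB z (α i) := by
    rw [Complex.im_ofReal_mul, Complex.add_im, ← LL_im]
    simp
  rw [h1, h2]
  have h3 := sum_BB hz α m hα hD
  have h4 : |1 / (6 * D) * ∑ i, m i * BB z (α i)| ≤ Real.pi / 3 := by
    rw [abs_mul, abs_of_pos (by positivity)]
    calc 1 / (6 * D) * |∑ i, m i * BB z (α i)| ≤ 1 / (6 * D) * (2 * Real.pi * D) :=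
          mul_le_mul_of_nonneg_left h3 (by positivity)
      _ = Real.pi / 3 := by field_simp; ring
  have h5 : 1 / 2 ≤ Real.cos (1 / (6 * D) * ∑ i, m i * BB z (α i)) := by
    rw [← Real.cos_pi_div_three, ← Real.cos_abs (1 / (6 * D) * ∑ i, m i * BB z (α i))]
    exact Real.cos_le_cos_of_nonneg_of_le_pi (abs_nonneg _) (by linarith [Real.pi_pos]) h4
  have h6 := Real.exp_pos (1 / (6 * D) * Lam α m z)
  nlinarith

lemma Phi_avg (α m : ι → ℝ) (p : ℝ) {r : ℝ} (hr0 : 0 < r) (hr1 : r < 1) :
    Real.circleAverage (fun z => (Phi α m p z).re) 0 r ≤ 1 := by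
  have hd : ∀ z ∈ closedBall (0 : ℂ) |r|, DifferentiableAt ℂ (Phi α m p) z := by
    intro z hz
    rw [mem_closedBall_zero_iff, abs_of_pos hr0] at hz
    have := LL_diff α m (z := z) (by linarith)
    unfold Phi
    exact ((this.add_const _).const_mul _).cexp
  have h1 : Real.circleAverage (Phi α m p) 0 r = Phi α m p 0 :=
    circleAverage_of_differentiable_on_off_countable Set.countable_empty
      (fun z hz => (hd z hz).continuousAt.continuousWithinAt)
      (fun z hz => hd z (ball_subset_closedBall hz.1))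
  have hc : Continuous fun θ : ℝ => Phi α m p (circleMap 0 r θ) := by
    rw [continuous_iff_continuousAt]
    intro θ
    refine ContinuousAt.comp (f := circleMap 0 r) (g := Phi α m p) ?_
      (continuous_circleMap 0 r).continuousAt
    refine (hd _ ?_).continuousAt
    rw [mem_closedBall_zero_iff]
    simp
  have h2 : Real.circleAverage (fun z => (Phi α m p z).re) 0 r =
      (Real.circleAverage (Phi α m p) 0 r).re := by
    rw [Real.circleAverage_def, Real.circleAverage_def]
    have := Complex.reCLM.intervalIntegral_comp_comm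
      (hc.intervalIntegrable (μ := volume) 0 (2 * Real.pi))
    rw [Complex.smul_re]
    congr 1
  rw [h2, h1]
  unfold Phi
  rw [LL_zero, zero_add]
  refine (Complex.re_le_norm _).trans ?_
  rw [Complex.norm_exp]
  simp

lemma Lam_cont (α m : ι → ℝ) {z : ℂ} (hz : ∀ i, (1 : ℂ) - ww z (α i) ≠ 0) :
    ContinuousAt (Lam α m) z := by
  unfold Lam
  refine tendsto_finsetSum _ fun i _ => ?_
  refine Tendsto.const_mul _ ?_
  have h1 : ContinuousAt (fun z : ℂ => ‖(1 : ℂ) - ww z (α i)‖) z := by
    unfold ww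
    fun_prop
  exact h1.log (norm_ne_zero_iff.mpr (hz i))

lemma Lam_avg (α m : ι → ℝ) (hα : ∀ i, -Real.pi ≤ α i ∧ α i ≤ Real.pi) {D : ℝ} (hD0 : 0 < D)
    (hD : ∀ x, |cnt α m x| ≤ D) {r : ℝ} (hr0 : 0 < r) (hr1 : r < 1) :
    ∫ θ in (0:ℝ)..(2 * Real.pi), max 0 (Lam α m (circleMap 0 r θ)) ≤ 2 * Real.pi * (12 * D) := by
  have hn : ∀ θ, ‖circleMap 0 r θ‖ < 1 := by
    intro θ
    simp [abs_of_pos hr0, hr1]
  have hc : Continuous fun θ : ℝ => Lam α m (circleMap 0 r θ) := by
    rw [continuous_iff_continuousAt]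
    intro θ
    refine ContinuousAt.comp (f := circleMap 0 r) (g := Lam α m) ?_
      (continuous_circleMap 0 r).continuousAt
    exact Lam_cont α m fun i => one_sub_ne (by rw [norm_ww]; exact hn θ)
  have hd : ∀ z ∈ closedBall (0 : ℂ) |r|, DifferentiableAt ℂ (Phi α m (1 / (6 * D))) z := by
    intro z hz
    rw [mem_closedBall_zero_iff, abs_of_pos hr0] at hz
    have := LL_diff α m (z := z) (by linarith)
    unfold Phi
    exact ((this.add_const _).const_mul _).cexp
  have hc2 : Continuous fun θ : ℝ => (Phi α m (1 / (6 * D)) (circleMap 0 r θ)).re := by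
    refine Complex.continuous_re.comp ?_
    rw [continuous_iff_continuousAt]
    intro θ
    refine ContinuousAt.comp (f := circleMap 0 r) (g := Phi α m (1 / (6 * D))) ?_
      (continuous_circleMap 0 r).continuousAt
    refine (hd _ ?_).continuousAt
    rw [mem_closedBall_zero_iff]
    simp
  have h1 : ∀ θ : ℝ, max 0 (Lam α m (circleMap 0 r θ)) ≤
      12 * D * (Phi α m (1 / (6 * D)) (circleMap 0 r θ)).re := by
    intro θ
    have h2 := Phi_re α m hα hD0 hD (hn θ)
    have h3 : Lam α m (circleMap 0 r θ) ≤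
        6 * D * Real.exp (1 / (6 * D) * Lam α m (circleMap 0 r θ)) := by
      have h4 := Real.add_one_le_exp (1 / (6 * D) * Lam α m (circleMap 0 r θ))
      have h5 : Lam α m (circleMap 0 r θ) =
          6 * D * (1 / (6 * D) * Lam α m (circleMap 0 r θ)) := by field_simp
      calc Lam α m (circleMap 0 r θ) = 6 * D * (1 / (6 * D) * Lam α m (circleMap 0 r θ)) := h5
        _ ≤ 6 * D * Real.exp (1 / (6 * D) * Lam α m (circleMap 0 r θ)) :=
          mul_le_mul_of_nonneg_left (by linarith) (by positivity)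
    have h6 := Real.exp_pos (1 / (6 * D) * Lam α m (circleMap 0 r θ))
    refine max_le ?_ ?_
    · have : 0 ≤ (Phi α m (1 / (6 * D)) (circleMap 0 r θ)).re := by linarith
      positivity
    · nlinarith
  have h2 : ∫ θ in (0:ℝ)..(2 * Real.pi), max 0 (Lam α m (circleMap 0 r θ)) ≤
      ∫ θ in (0:ℝ)..(2 * Real.pi), 12 * D * (Phi α m (1 / (6 * D)) (circleMap 0 r θ)).re := by
    refine intervalIntegral.integral_mono (by positivity) ?_ ?_ h1
    · exact (continuous_const.max hc).intervalIntegrable _ _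
    · exact (continuous_const.mul hc2).intervalIntegrable _ _
  refine h2.trans ?_
  rw [intervalIntegral.integral_const_mul]
  have h3 := Phi_avg α m (1 / (6 * D)) hr0 hr1
  rw [Real.circleAverage_def, smul_eq_mul, inv_mul_le_iff₀ (by positivity), mul_one] at h3
  nlinarith

/-- **The main estimate on the unit circle.** -/
theorem Lam_main (α m : ι → ℝ) (hα : ∀ i, -Real.pi ≤ α i ∧ α i ≤ Real.pi) {D : ℝ} (hD0 : 0 < D)
    (hD : ∀ x, |cnt α m x| ≤ D) :
    Real.circleAverage (fun z => max 0 (Lam α m z)) 0 1 ≤ 12 * D := by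
  set r : ℕ → ℝ := fun n => 1 - 1 / ((n : ℝ) + 2) with hr
  have hr0 : ∀ n, 0 < r n := by
    intro n
    rw [hr]
    have : 1 / ((n : ℝ) + 2) < 1 := by
      rw [div_lt_one (by positivity)]
      have : (0 : ℝ) ≤ n := Nat.cast_nonneg n
      linarith
    simp only
    linarith
  have hr1 : ∀ n, r n < 1 := by
    intro n
    rw [hr]
    have : 0 < 1 / ((n : ℝ) + 2) := by positivity
    simp only
    linarith
  have hlim : Tendsto r atTop (𝓝 1) := by
    have h1 : Tendsto (fun n : ℕ => 1 / ((n : ℝ) + 2)) atTop (𝓝 0) := by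
      have := tendsto_const_nhds (x := (1:ℝ)).div_atTop
        (tendsto_natCast_atTop_atTop.atTop_add (tendsto_const_nhds (x := (2:ℝ))))
      exact this
    have := tendsto_const_nhds (x := (1:ℝ)).sub h1
    rw [sub_zero] at this
    exact this
  set μ := volume.restrict (Set.Ioc (0:ℝ) (2 * Real.pi)) with hμ
  have hne : ∀ᵐ θ ∂μ, ∀ i, (1 : ℂ) - ww (circleMap 0 1 θ) (α i) ≠ 0 := by
    rw [ae_all_iff]
    intro i
    have hcount : (circleMap 0 1 ⁻¹' {Complex.exp (α i * Complex.I)}).Countable :=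
      (Set.countable_singleton _).preimage_circleMap 0 one_ne_zero
    have h1 : ∀ᵐ θ ∂μ, θ ∉ circleMap 0 1 ⁻¹' {Complex.exp (α i * Complex.I)} :=
      (hcount.ae_notMem _)
    filter_upwards [h1] with θ hθ h2
    apply hθ
    rw [Set.mem_preimage, Set.mem_singleton_iff]
    unfold ww at h2
    rw [sub_eq_zero] at h2
    have h3 : Complex.exp (-((α i : ℂ) * Complex.I)) * Complex.exp ((α i : ℂ) * Complex.I) = 1 := by
      rw [← Complex.exp_add]
      simp
    calc circleMap 0 1 θ = (Complex.exp (-((α i : ℂ) * Complex.I)) *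
          Complex.exp ((α i : ℂ) * Complex.I)) * circleMap 0 1 θ := by rw [h3, one_mul]
      _ = Complex.exp ((α i : ℂ) * Complex.I) *
          (Complex.exp (-((α i : ℂ) * Complex.I)) * circleMap 0 1 θ) := by ring
      _ = Complex.exp ((α i : ℂ) * Complex.I) := by rw [← h2, mul_one]
  have hconv : ∀ᵐ θ ∂μ, Tendsto (fun n => ENNReal.ofReal (max 0 (Lam α m (circleMap 0 (r n) θ))))
      atTop (𝓝 (ENNReal.ofReal (max 0 (Lam α m (circleMap 0 1 θ))))) := by
    filter_upwards [hne] with θ hθ
    refine ENNReal.tendsto_ofReal ?_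
    refine Tendsto.max tendsto_const_nhds ?_
    refine (Lam_cont α m hθ).tendsto.comp ?_
    unfold circleMap
    have h1 : Tendsto (fun n => ((r n : ℝ) : ℂ)) atTop (𝓝 ((1:ℝ):ℂ)) :=
      (Complex.continuous_ofReal.tendsto 1).comp hlim
    exact tendsto_const_nhds.add (h1.mul tendsto_const_nhds)
  have hcn : ∀ n, Continuous fun θ : ℝ => Lam α m (circleMap 0 (r n) θ) := by
    intro n
    rw [continuous_iff_continuousAt]
    intro θ
    refine ContinuousAt.comp (f := circleMap 0 (r n)) (g := Lam α m) ?_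
      (continuous_circleMap 0 (r n)).continuousAt
    refine Lam_cont α m fun i => one_sub_ne ?_
    rw [norm_ww]
    simp [abs_of_pos (hr0 n), hr1 n]
  have hbound : ∀ n, ∫⁻ θ, ENNReal.ofReal (max 0 (Lam α m (circleMap 0 (r n) θ))) ∂μ ≤
      ENNReal.ofReal (2 * Real.pi * (12 * D)) := by
    intro n
    rw [← ofReal_integral_eq_lintegral_ofReal]
    · refine ENNReal.ofReal_le_ofReal ?_
      rw [hμ, ← intervalIntegral.integral_of_le (by positivity)]
      exact Lam_avg α m hα hD0 hD (hr0 n) (hr1 n)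
    · have := (continuous_const.max (hcn n) (f := fun _ => (0:ℝ))).intervalIntegrable
        (μ := volume) 0 (2 * Real.pi)
      exact this.1
    · exact Eventually.of_forall fun θ => le_max_left _ _
  have hfatou : ∫⁻ θ, ENNReal.ofReal (max 0 (Lam α m (circleMap 0 1 θ))) ∂μ ≤
      ENNReal.ofReal (2 * Real.pi * (12 * D)) := by
    have h1 : ∫⁻ θ, ENNReal.ofReal (max 0 (Lam α m (circleMap 0 1 θ))) ∂μ =
        ∫⁻ θ, liminf (fun n => ENNReal.ofReal (max 0 (Lam α m (circleMap 0 (r n) θ)))) atTop ∂μ := by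
      refine lintegral_congr_ae ?_
      filter_upwards [hconv] with θ hθ
      exact hθ.liminf_eq.symm
    rw [h1]
    refine (lintegral_liminf_le fun n => ?_).trans ?_
    · exact ENNReal.measurable_ofReal.comp (measurable_const.max (hcn n).measurable)
    · refine liminf_le_of_frequently_le' (Frequently.of_forall hbound)
  have hmeas : AEStronglyMeasurable (fun θ => max 0 (Lam α m (circleMap 0 1 θ))) μ := by
    have h1 : Measurable (fun θ : ℝ => Lam α m (circleMap 0 1 θ)) := by
      unfold Lam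
      refine Finset.measurable_sum _ fun i _ => ?_
      refine Measurable.const_mul (Real.measurable_log.comp ?_) _
      have : Continuous fun θ : ℝ => ‖(1 : ℂ) - ww (circleMap 0 1 θ) (α i)‖ := by
        unfold ww
        fun_prop
      exact this.measurable
    exact (measurable_const.max h1).aestronglyMeasurable
  have he : ∫ θ, max 0 (Lam α m (circleMap 0 1 θ)) ∂μ =
      (∫⁻ θ, ENNReal.ofReal (max 0 (Lam α m (circleMap 0 1 θ))) ∂μ).toReal :=
    integral_eq_lintegral_of_nonneg_ae (Eventually.of_forall fun θ => le_max_left _ _) hmeas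
  rw [Real.circleAverage_def, smul_eq_mul, inv_mul_le_iff₀ (by positivity),
    intervalIntegral.integral_of_le (by positivity)]
  exact he.le.trans (ENNReal.toReal_le_of_le_ofReal (by positivity) hfatou)

end

end Pool.Agent.K3h58.ZD
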