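import Mathlib
import Pool.Agent.K3h58.ZD.Avg

/-!
# Zeros off the unit circle
-/

set_option autoImplicit false

open MeasureTheory intervalIntegral Metric Filter Topology

namespace Pool.Agent.K3h58.ZD

noncomputable section

/-- the logarithm of a linear factor -/
def lf (b z : ℂ) : ℝ := Real.log ‖1 - starRingEnd ℂ b * z‖

lemma circ_lf (b : ℂ) : CircleIntegrable (lf b) 0 1 := by
  refine (MeromorphicOn.circleIntegrable_log_norm (f := fun z => 1 - starRingEnd ℂ b * z) ?_)
  intro z _
  have : AnalyticAt ℂ (fun z : ℂ => 1 - starRingEnd ℂ b * z) z := by fun_prop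
  exact this.meromorphicAt

lemma norm_lin {b z : ℂ} (hz : ‖z‖ = 1) : ‖1 - starRingEnd ℂ b * z‖ = ‖z - b‖ := by
  have h1 : starRingEnd ℂ (1 - starRingEnd ℂ b * z) * z = z - b := by
    rw [map_sub, map_one, map_mul, Complex.conj_conj, sub_mul, one_mul, mul_assoc,
      Complex.conj_mul', hz]
    norm_num
  rw [← h1, norm_mul, hz, mul_one, Complex.norm_conj]

lemma avg_lf {b : ℂ} (hb : ‖b‖ ≤ 1) : Real.circleAverage (lf b) 0 1 = 0 := by
  have h1 : Real.circleAverage (lf b) 0 1 = Real.circleAverage (fun z => Real.log ‖z - b‖) 0 1 := by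
    refine Real.circleAverage_congr_sphere fun z hz => ?_
    rw [mem_sphere_zero_iff_norm, abs_one] at hz
    unfold lf
    rw [norm_lin hz]
  rw [h1, circleAverage_log_norm_sub_const_eq_posLog, Real.posLog_eq_zero_iff]
  rw [abs_norm]
  exact hb

lemma normSq_lin {r : ℝ} {w : ℂ} (hw : ‖w‖ = 1) :
    ‖1 - (r : ℂ) * w‖ ^ 2 = 1 - 2 * r * w.re + r ^ 2 := by
  have h1 : w.re ^ 2 + w.im ^ 2 = 1 := by
    have := Complex.normSq_eq_norm_sq w
    rw [hw, Complex.normSq_apply] at this
    nlinarith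
  rw [← Complex.normSq_eq_norm_sq, Complex.normSq_apply]
  simp only [Complex.sub_re, Complex.one_re, Complex.re_ofReal_mul, Complex.sub_im, Complex.one_im,
    Complex.im_ofReal_mul]
  nlinarith

/-- moving a zero radially to the unit circle -/
lemma radial {b : ℂ} (hb0 : b ≠ 0) (hb : ‖b‖ ≤ 1) :
    Real.circleAverage (fun z => |lf b z - lf (Complex.exp (b.arg * Complex.I)) z|) 0 1 ≤
      2 * Real.log (1 / ‖b‖) := by
  set r := ‖b‖ with hr
  have hr0 : 0 < r := norm_pos_iff.mpr hb0
  set u := Complex.exp (b.arg * Complex.I) with hu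
  have hu1 : ‖u‖ = 1 := Complex.norm_exp_ofReal_mul_I _
  have hbu : b = r * u := by
    rw [hr, hu]
    exact (Complex.norm_mul_exp_arg_mul_I b).symm
  set δ := 1 - r with hδ
  have hδ0 : 0 ≤ δ := by rw [hδ]; linarith
  have hδ1 : δ ≤ 1 := by rw [hδ]; linarith
  set ρ := 1 + 2 * δ with hρ
  have hρ1 : 1 ≤ ρ := by rw [hρ]; linarith
  have hL : 0 ≤ Real.log (1 / r) := Real.log_nonneg (by rw [le_div_iff₀ hr0]; linarith)
  -- pointwise bound
  have key : ∀ z : ℂ, ‖z‖ = 1 → (1 : ℂ) - starRingEnd ℂ u * z ≠ 0 →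
      |lf b z - lf u z| ≤ (Real.log ‖z - (ρ * u : ℂ)‖ - Real.log ρ / 2 - lf u z) +
        Real.log (1 / r) / 2 := by
    intro z hz hne
    set w := starRingEnd ℂ u * z with hw
    have hw1 : ‖w‖ = 1 := by rw [hw, norm_mul, Complex.norm_conj, hu1, hz, one_mul]
    have e1 : starRingEnd ℂ b * z = (r : ℂ) * w := by
      rw [hbu, map_mul, Complex.conj_ofReal, hw, mul_assoc]
    have e2 : ‖z - (ρ * u : ℂ)‖ = ‖1 - (ρ : ℂ) * w‖ := by
      rw [← norm_lin hz, map_mul, Complex.conj_ofReal, hw, mul_assoc]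
    have f1 := normSq_lin (r := r) hw1
    have f2 := normSq_lin (r := 1) hw1
    have f3 := normSq_lin (r := ρ) hw1
    rw [Complex.ofReal_one, one_mul] at f2
    have hre : w.re ≤ 1 := (Complex.re_le_norm w).trans hw1.le
    have hre' : -1 ≤ w.re := by
      have := Complex.abs_re_le_norm w
      rw [hw1] at this
      exact (abs_le.mp this).1
    have p1 : 0 < ‖1 - w‖ := norm_pos_iff.mpr hne
    have g1 : ‖1 - (r : ℂ) * w‖ ^ 2 = r * ‖1 - w‖ ^ 2 + δ ^ 2 := by
      rw [f1, f2, hδ]; ring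
    have g3 : ‖1 - (ρ : ℂ) * w‖ ^ 2 = ρ * ‖1 - w‖ ^ 2 + (2 * δ) ^ 2 := by
      rw [f3, f2, hρ]; ring
    have p2 : 0 < ‖1 - (r : ℂ) * w‖ := by
      have h4 : 0 < ‖1 - (r : ℂ) * w‖ ^ 2 := by rw [g1]; positivity
      by_contra h5
      have h6 : ‖1 - (r : ℂ) * w‖ = 0 := le_antisymm (not_lt.mp h5) (norm_nonneg _)
      rw [h6] at h4
      norm_num at h4
    have p3 : 0 < ‖1 - (ρ : ℂ) * w‖ := by
      have h4 : 0 < ‖1 - (ρ : ℂ) * w‖ ^ 2 := by rw [g3]; positivity
      by_contra h5
      have h6 : ‖1 - (ρ : ℂ) * w‖ = 0 := le_antisymm (not_lt.mp h5) (norm_nonneg _)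
      rw [h6] at h4
      norm_num at h4
    unfold lf
    rw [e1, e2, ← hw]
    have hρ0 : 0 < ρ := by linarith
    -- upper
    have u1 : 2 * Real.log ‖1 - (r : ℂ) * w‖ ≤ 2 * Real.log ‖1 - (ρ : ℂ) * w‖ - Real.log ρ := by
      have h1 : ρ * ‖1 - (r : ℂ) * w‖ ^ 2 ≤ ‖1 - (ρ : ℂ) * w‖ ^ 2 := by
        rw [g1, g3]
        have h2 : ρ * r ≤ ρ := by nlinarith
        have h3 : 0 ≤ ‖1 - w‖ ^ 2 := by positivity
        have h4 : ρ * δ ^ 2 ≤ (2 * δ) ^ 2 := by
          have : ρ ≤ 4 := by rw [hρ]; linarith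
          nlinarith [sq_nonneg δ]
        nlinarith
      have h2 := Real.log_le_log (by positivity) h1
      rw [Real.log_mul hρ0.ne' (by positivity), Real.log_pow, Real.log_pow] at h2
      push_cast at h2
      linarith
    have u2 : 2 * Real.log ‖1 - w‖ ≤ 2 * Real.log ‖1 - (ρ : ℂ) * w‖ - Real.log ρ := by
      have h1 : ρ * ‖1 - w‖ ^ 2 ≤ ‖1 - (ρ : ℂ) * w‖ ^ 2 := by
        rw [g3]
        nlinarith [sq_nonneg δ]
      have h2 := Real.log_le_log (by positivity) h1
      rw [Real.log_mul hρ0.ne' (by positivity), Real.log_pow, Real.log_pow] at h2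
      push_cast at h2
      linarith
    have u3 : 2 * Real.log ‖1 - w‖ ≤ 2 * Real.log ‖1 - (r : ℂ) * w‖ + Real.log (1 / r) := by
      have h1 : r * ‖1 - w‖ ^ 2 ≤ ‖1 - (r : ℂ) * w‖ ^ 2 := by
        rw [g1]
        nlinarith [sq_nonneg δ]
      have h2 := Real.log_le_log (by positivity) h1
      rw [Real.log_mul hr0.ne' (by positivity), Real.log_pow, Real.log_pow] at h2
      push_cast at h2
      rw [one_div, Real.log_inv]
      linarith
    rw [abs_le]
    constructor <;> linarith
  have i1 : CircleIntegrable (fun z => Real.log ‖z - (ρ * u : ℂ)‖) 0 1 :=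
    circleIntegrable_log_norm_sub_const 1
  have i2 := circ_lf u
  have i3 := circ_lf b
  have iL : CircleIntegrable (fun z => |lf b z - lf u z|) 0 1 := by
    have := (i3.sub i2).abs
    exact this
  have iR : CircleIntegrable (fun z => (Real.log ‖z - (ρ * u : ℂ)‖ - Real.log ρ / 2 - lf u z) +
        Real.log (1 / r) / 2) 0 1 :=
    ((i1.sub (circleIntegrable_const _ _ _)).sub i2).add (circleIntegrable_const _ _ _)
  have hle : Real.circleAverage (fun z => |lf b z - lf u z|) 0 1 ≤
      Real.circleAverage (fun z => (Real.log ‖z - (ρ * u : ℂ)‖ - Real.log ρ / 2 - lf u z) +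
        Real.log (1 / r) / 2) 0 1 := by
    rw [Real.circleAverage_def, Real.circleAverage_def, smul_eq_mul, smul_eq_mul]
    refine mul_le_mul_of_nonneg_left ?_ (by positivity)
    refine intervalIntegral.integral_mono_ae_restrict (by positivity) iL iR ?_
    have hcount : (circleMap 0 1 ⁻¹' {u}).Countable :=
      (Set.countable_singleton _).preimage_circleMap 0 one_ne_zero
    filter_upwards [hcount.ae_notMem _] with θ hθ
    refine key _ (by simp) fun h => hθ ?_
    rw [Set.mem_preimage, Set.mem_singleton_iff]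
    have h2 : ‖circleMap 0 1 θ - u‖ = 0 := by
      rw [← norm_lin (b := u) (by simp), h, norm_zero]
    exact sub_eq_zero.mp (norm_eq_zero.mp h2)
  refine hle.trans ?_
  have e1 : Real.circleAverage (fun z => (Real.log ‖z - (ρ * u : ℂ)‖ - Real.log ρ / 2 - lf u z) +
        Real.log (1 / r) / 2) 0 1 = Real.log ρ / 2 + Real.log (1 / r) / 2 := by
    have j1 : CircleIntegrable (fun z => Real.log ‖z - (ρ * u : ℂ)‖ - Real.log ρ / 2) 0 1 :=
      i1.sub (circleIntegrable_const _ _ _)
    have j2 : CircleIntegrable (fun z => Real.log ‖z - (ρ * u : ℂ)‖ - Real.log ρ / 2 - lf u z)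
      0 1 := j1.sub i2
    rw [Real.circleAverage_fun_add j2 (circleIntegrable_const _ _ _),
      Real.circleAverage_fun_sub j1 i2,
      Real.circleAverage_fun_sub i1 (circleIntegrable_const _ _ _), Real.circleAverage_const,
      Real.circleAverage_const, avg_lf hu1.le, circleAverage_log_norm_sub_const_eq_posLog]
    have : ‖(ρ * u : ℂ)‖ = ρ := by
      rw [norm_mul, hu1, mul_one, Complex.norm_real, Real.norm_eq_abs, abs_of_nonneg (by linarith)]
    rw [this, Real.posLog_eq_log (by rw [abs_of_nonneg (by linarith)]; exact hρ1)]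
    ring
  rw [e1]
  have h1 : Real.log ρ ≤ 2 * δ := by
    have := Real.log_le_sub_one_of_pos (show 0 < ρ by linarith)
    rw [hρ] at this ⊢
    linarith
  have h2 : δ ≤ Real.log (1 / r) := by
    rw [one_div, Real.log_inv]
    have := Real.log_le_sub_one_of_pos hr0
    rw [hδ]
    linarith
  linarith

lemma circ_max {f : ℂ → ℝ} (h : CircleIntegrable f 0 1) :
    CircleIntegrable (fun z => max 0 (f z)) 0 1 := by
  have h1 : (fun z => max 0 (f z)) = fun z => max (f z) 0 := by
    funext z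
    rw [max_comm]
  rw [h1]
  exact ⟨h.1.pos_part, h.2.pos_part⟩

variable {ι : Type*} [Fintype ι]

lemma conj_exp (x : ℝ) (z : ℂ) : starRingEnd ℂ (Complex.exp (x * Complex.I)) * z = ww z x := by
  unfold ww
  rw [← Complex.exp_conj, map_mul, Complex.conj_ofReal, Complex.conj_I]
  congr 2
  ring

/-- **Main estimate.** -/
theorem quot_main (b : ι → ℂ) (m : ι → ℝ) (hb0 : ∀ i, b i ≠ 0) (hb : ∀ i, ‖b i‖ ≤ 1) {D : ℝ}
    (hD0 : 0 < D) (hD : ∀ x, |cnt (fun i => (b i).arg) m x| ≤ D) :
    Real.circleAverage (fun z => max 0 (∑ i, m i * lf (b i) z)) 0 1 ≤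
      12 * D + 2 * ∑ i, |m i| * Real.log (1 / ‖b i‖) := by
  have h1 := Lam_main (fun i => (b i).arg) m (fun i => ⟨(Complex.neg_pi_lt_arg _).le,
    Complex.arg_le_pi _⟩) hD0 hD
  have hLam : ∀ z, Lam (fun i => (b i).arg) m z =
      ∑ i, m i * lf (Complex.exp ((b i).arg * Complex.I)) z := by
    intro z
    unfold Lam lf
    refine Finset.sum_congr rfl fun i _ => ?_
    rw [conj_exp]
  have iS : ∀ c : ι → ℂ, CircleIntegrable (fun z => ∑ i, m i * lf (c i) z) 0 1 := by
    intro c
    refine CircleIntegrable.fun_sum _ fun i _ => ?_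
    exact (circ_lf (c i)).const_fun_smul (a := m i)
  set c : ι → ℂ := fun i => Complex.exp ((b i).arg * Complex.I) with hc
  have i1 : CircleIntegrable (fun z => max 0 (Lam (fun i => (b i).arg) m z)) 0 1 := by
    refine circ_max ?_
    have := iS c
    have e : (fun z => ∑ i, m i * lf (c i) z) = Lam (fun i => (b i).arg) m := by
      funext z
      rw [hLam]
    rw [e] at this
    exact this
  have i2 : CircleIntegrable (fun z => ∑ i, |m i| * |lf (b i) z - lf (c i) z|) 0 1 := by
    refine CircleIntegrable.fun_sum _ fun i _ => ?_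
    have := (((circ_lf (b i)).sub (circ_lf (c i))).abs).const_fun_smul (a := |m i|)
    exact this
  have hle : Real.circleAverage (fun z => max 0 (∑ i, m i * lf (b i) z)) 0 1 ≤
      Real.circleAverage (fun z => max 0 (Lam (fun i => (b i).arg) m z) +
        ∑ i, |m i| * |lf (b i) z - lf (c i) z|) 0 1 := by
    refine Real.circleAverage_mono (circ_max (iS b)) (i1.add i2) fun z _ => ?_
    have h2 : ∑ i, m i * lf (b i) z = Lam (fun i => (b i).arg) m z +
        ∑ i, m i * (lf (b i) z - lf (c i) z) := by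
      rw [hLam, ← Finset.sum_add_distrib]
      refine Finset.sum_congr rfl fun i _ => ?_
      rw [hc]
      ring
    have h3 : ∑ i, m i * (lf (b i) z - lf (c i) z) ≤ ∑ i, |m i| * |lf (b i) z - lf (c i) z| := by
      refine Finset.sum_le_sum fun i _ => ?_
      rw [← abs_mul]
      exact le_abs_self _
    have h4 : 0 ≤ ∑ i, |m i| * |lf (b i) z - lf (c i) z| :=
      Finset.sum_nonneg fun i _ => by positivity
    have h5 := le_max_left 0 (Lam (fun i => (b i).arg) m z)
    have h6 := le_max_right 0 (Lam (fun i => (b i).arg) m z)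
    refine max_le (by linarith) ?_
    rw [h2]
    linarith
  refine hle.trans ?_
  rw [Real.circleAverage_fun_add i1 i2, Real.circleAverage_fun_sum]
  · refine add_le_add h1 ?_
    rw [Finset.mul_sum]
    refine Finset.sum_le_sum fun i _ => ?_
    have h2 := radial (hb0 i) (hb i)
    have h3 : Real.circleAverage (fun z => |m i| * |lf (b i) z - lf (c i) z|) 0 1 =
        |m i| * Real.circleAverage (fun z => |lf (b i) z - lf (c i) z|) 0 1 := by
      have := Real.circleAverage_fun_smul (a := |m i|)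
        (f := fun z => |lf (b i) z - lf (c i) z|) (c := 0) (R := 1)
      exact this
    rw [h3]
    have h4 := mul_le_mul_of_nonneg_left h2 (abs_nonneg (m i))
    linarith
  · intro i _
    have := (((circ_lf (b i)).sub (circ_lf (c i))).abs).const_fun_smul (a := |m i|)
    exact this

end

end Pool.Agent.K3h58.ZD
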