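import Mathlib
import Pool.Agent.K3h58.ZD.Rad

/-!
# Pairs of polynomials with close zeros
-/

set_option autoImplicit false

open MeasureTheory intervalIntegral Metric Filter Topology Polynomial

namespace Pool.Agent.K3h58.ZD

noncomputable section

/-- the zero moved into the closed unit disc by the reflection in the unit circle -/
def bb (w : ℂ) : ℂ := if ‖w‖ ≤ 1 then w else (starRingEnd ℂ w)⁻¹

lemma bb_ne {w : ℂ} (hw : w ≠ 0) : bb w ≠ 0 := by
  unfold bb
  split_ifs
  · exact hw
  · exact inv_ne_zero ((_root_.map_ne_zero _).mpr hw)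

lemma bb_norm (w : ℂ) : ‖bb w‖ ≤ 1 := by
  unfold bb
  split_ifs with h
  · exact h
  · rw [norm_inv, Complex.norm_conj]
    exact inv_le_one_of_one_le₀ (not_le.mp h).le

lemma bb_arg {w : ℂ} : (bb w).arg = w.arg := by
  unfold bb
  split_ifs with h
  · rfl
  · have hw : w ≠ 0 := by
      rintro rfl
      simp at h
    have h1 : (starRingEnd ℂ w)⁻¹ = ((1 / ‖w‖ ^ 2 : ℝ) : ℂ) * w := by
      rw [Complex.inv_def, Complex.conj_conj, Complex.normSq_conj, Complex.normSq_eq_norm_sq]
      push_cast
      ring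
    rw [h1]
    exact Complex.arg_real_mul _ (by have := norm_pos_iff.mpr hw; positivity)

lemma bb_log {w : ℂ} (hw : w ≠ 0) : Real.log (1 / ‖bb w‖) = |Real.log ‖w‖| := by
  have h0 : 0 < ‖w‖ := norm_pos_iff.mpr hw
  unfold bb
  split_ifs with h
  · rw [one_div, Real.log_inv, abs_of_nonpos (Real.log_nonpos h0.le h)]
  · rw [norm_inv, Complex.norm_conj, one_div, inv_inv,
      abs_of_nonneg (Real.log_nonneg (not_le.mp h).le)]

lemma log_factor {z w : ℂ} (hz : ‖z‖ = 1) (hzw : z ≠ w) :
    Real.log ‖z - w‖ = Real.posLog ‖w‖ + lf (bb w) z := by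
  unfold lf bb
  split_ifs with h
  · rw [norm_lin hz, (Real.posLog_eq_zero_iff _).mpr (by rw [abs_norm]; exact h), zero_add]
  · have h1 : 1 < ‖w‖ := not_le.mp h
    have hw : w ≠ 0 := by
      rintro rfl
      simp at h1
      linarith
    rw [map_inv₀, Complex.conj_conj, Real.posLog_eq_log (by rw [abs_norm]; exact h1.le)]
    have h2 : z - w = -w * (1 - w⁻¹ * z) := by
      field_simp
      ring
    have h3 : (1 - w⁻¹ * z) ≠ 0 := by
      intro h4
      rw [h4, mul_zero] at h2
      exact hzw (sub_eq_zero.mp h2)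
    rw [h2, norm_mul, norm_neg, Real.log_mul (norm_ne_zero_iff.mpr hw) (norm_ne_zero_iff.mpr h3)]

lemma sum_count (s : Multiset ℂ) (S : Finset ℂ) (hS : s.toFinset ⊆ S) (φ : ℂ → ℝ) :
    ∑ w ∈ S, (s.count w : ℝ) * φ w = (s.map φ).sum := by
  rw [Finset.sum_multiset_map_count, ← Finset.sum_subset hS]
  · refine Finset.sum_congr rfl fun w _ => ?_
    rw [nsmul_eq_mul]
  · intro w _ hw
    rw [Multiset.mem_toFinset] at hw
    rw [Multiset.count_eq_zero_of_notMem hw]
    simp

lemma card_filter_sum (s : Multiset ℂ) (p : ℂ → Prop) [DecidablePred p] :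
    ((s.filter p).card : ℝ) = (s.map fun w => if p w then (1 : ℝ) else 0).sum := by
  induction s using Multiset.induction_on with
  | empty => simp
  | cons a s ih =>
    by_cases h : p a
    · rw [Multiset.filter_cons_of_pos _ h, Multiset.card_cons, Multiset.map_cons,
        Multiset.sum_cons, if_pos h, ← ih]
      push_cast
      ring
    · rw [Multiset.filter_cons_of_neg _ h, Multiset.map_cons, Multiset.sum_cons, if_neg h, ← ih]
      ring

/-- The number of the nonzero complex zeros `w` of `f`, counted with multiplicity, whose argument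
in `(-π, π]` is less than `x`. -/
def zerosBelow (f : ℂ[X]) (x : ℝ) : ℕ :=
  (f.roots.filter fun w => w ≠ 0 ∧ w.arg < x).card

lemma log_eval {f : ℂ[X]} {z : ℂ} (hz : ‖z‖ = 1) (hfz : f.eval z ≠ 0) :
    Real.log ‖f.eval z‖ = f.logMahlerMeasure + (f.roots.map fun w => lf (bb w) z).sum := by
  have hf : f ≠ 0 := by
    rintro rfl
    simp at hfz
  have h1 := (IsAlgClosed.splits f).eq_prod_roots
  have h2 : f.eval z = f.leadingCoeff * (f.roots.map fun w => z - w).prod := by
    conv_lhs => rw [h1]
    rw [eval_mul, eval_C, eval_multiset_prod, Multiset.map_map]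
    congr 2
    refine Multiset.map_congr rfl fun w _ => ?_
    simp
  have hroot : ∀ w ∈ f.roots, z ≠ w := by
    rintro w hw rfl
    exact hfz (isRoot_of_mem_roots hw)
  have hlc : f.leadingCoeff ≠ 0 := leadingCoeff_ne_zero.mpr hf
  have h3 : ∀ s : Multiset ℂ, (∀ w ∈ s, z ≠ w) →
      Real.log ‖(s.map fun w => z - w).prod‖ =
        (s.map fun w => Real.posLog ‖w‖).sum + (s.map fun w => lf (bb w) z).sum ∧
      (s.map fun w => z - w).prod ≠ 0 := by
    intro s
    induction s using Multiset.induction_on with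
    | empty => intro _; simp
    | cons a s ih =>
      intro h
      obtain ⟨ih1, ih2⟩ := ih fun w hw => h w (Multiset.mem_cons_of_mem hw)
      have h4 := h a (Multiset.mem_cons_self _ _)
      have h5 : z - a ≠ 0 := sub_ne_zero.mpr h4
      rw [Multiset.map_cons, Multiset.map_cons, Multiset.map_cons, Multiset.prod_cons,
        Multiset.sum_cons, Multiset.sum_cons, norm_mul,
        Real.log_mul (norm_ne_zero_iff.mpr h5) (norm_ne_zero_iff.mpr ih2), ih1, log_factor hz h4]
      exact ⟨by ring, mul_ne_zero h5 ih2⟩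
  obtain ⟨h4, h5⟩ := h3 f.roots hroot
  rw [h2, norm_mul, Real.log_mul (norm_ne_zero_iff.mpr hlc) (norm_ne_zero_iff.mpr h5), h4,
    logMahlerMeasure_eq_log_leadingCoeff_add_sum_log_roots]
  ring

lemma circ_log_eval (f : ℂ[X]) : CircleIntegrable (fun z => Real.log ‖f.eval z‖) 0 1 := by
  refine MeromorphicOn.circleIntegrable_log_norm fun z _ => ?_
  have : AnalyticAt ℂ (fun z : ℂ => f.eval z) z := by
    have := f.differentiable.analyticAt z
    exact this
  exact this.meromorphicAt

/-- the logarithm of the maximum of two absolute values -/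
lemma circ_logmax (f g : ℂ[X]) (t : ℕ) :
    CircleIntegrable (fun z => Real.log (max (‖f.eval z‖ ^ t) ‖g.eval z‖)) 0 1 := by
  have h1 : CircleIntegrable (fun z => (t : ℝ) * Real.log ‖f.eval z‖) 0 1 :=
    (circ_log_eval f).const_fun_smul (a := (t : ℝ))
  have h2 := circ_log_eval g
  have h3 : CircleIntegrable (fun z => |(t : ℝ) * Real.log ‖f.eval z‖| + |Real.log ‖g.eval z‖|) 0 1 :=
    h1.abs.add h2.abs
  refine IntervalIntegrable.mono_fun h3 ?_ ?_
  · have c1 : Continuous fun θ : ℝ => max (‖f.eval (circleMap 0 1 θ)‖ ^ t)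
        ‖g.eval (circleMap 0 1 θ)‖ := by
      have := f.continuous
      have := g.continuous
      have := continuous_circleMap 0 1
      fun_prop
    exact (Real.measurable_log.comp c1.measurable).aestronglyMeasurable
  · refine Filter.Eventually.of_forall fun θ => ?_
    set z := circleMap 0 1 θ
    show ‖Real.log (max (‖f.eval z‖ ^ t) ‖g.eval z‖)‖ ≤
      ‖|(t : ℝ) * Real.log ‖f.eval z‖| + |Real.log ‖g.eval z‖|‖
    rw [Real.norm_eq_abs, Real.norm_eq_abs, abs_of_nonneg (a := |(t : ℝ) * Real.log ‖f.eval z‖| +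
      |Real.log ‖g.eval z‖|) (by positivity)]
    rcases max_cases (‖f.eval z‖ ^ t) ‖g.eval z‖ with ⟨h1, _⟩ | ⟨h1, _⟩
    · rw [h1, Real.log_pow]
      linarith [abs_nonneg (Real.log ‖g.eval z‖)]
    · rw [h1]
      linarith [abs_nonneg ((t : ℝ) * Real.log ‖f.eval z‖)]

theorem pair_est (f g : ℂ[X]) (hf : f.eval 0 ≠ 0) (hg : g.eval 0 ≠ 0) (t : ℕ) {D : ℝ}
    (hD0 : 0 < D) (hD : ∀ x : ℝ, |(t : ℝ) * zerosBelow f x - zerosBelow g x| ≤ D) :
    Real.circleAverage (fun z => Real.log (max (‖f.eval z‖ ^ t) ‖g.eval z‖)) 0 1 ≤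
      max (t * f.logMahlerMeasure) g.logMahlerMeasure + 12 * D +
        2 * (t * (f.roots.map fun w => |Real.log ‖w‖|).sum +
          (g.roots.map fun w => |Real.log ‖w‖|).sum) := by
  classical
  have hf0 : f ≠ 0 := by
    rintro rfl
    simp at hf
  have hg0 : g ≠ 0 := by
    rintro rfl
    simp at hg
  have hz0 : ∀ w, w ∈ f.roots ∨ w ∈ g.roots → w ≠ 0 := by
    rintro w hw rfl
    rcases hw with hw | hw
    · exact hf (isRoot_of_mem_roots hw)
    · exact hg (isRoot_of_mem_roots hw)
  set S : Finset ℂ := f.roots.toFinset ∪ g.roots.toFinset with hS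
  have hSf : f.roots.toFinset ⊆ S := Finset.subset_union_left
  have hSg : g.roots.toFinset ⊆ S := Finset.subset_union_right
  have hSm : ∀ w ∈ S, w ≠ 0 := by
    intro w hw
    rw [hS, Finset.mem_union, Multiset.mem_toFinset, Multiset.mem_toFinset] at hw
    exact hz0 w hw
  set m : S → ℝ := fun w => t * (f.roots.count w.1 : ℝ) - (g.roots.count w.1 : ℝ) with hm
  have sumS : ∀ φ : ℂ → ℝ, ∑ i : S, m i * φ i.1 =
      t * (f.roots.map φ).sum - (g.roots.map φ).sum := by
    intro φ
    rw [← sum_count f.roots S hSf, ← sum_count g.roots S hSg, Finset.mul_sum,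
      ← Finset.sum_sub_distrib, ← Finset.sum_coe_sort S]
    refine Finset.sum_congr rfl fun w _ => ?_
    rw [hm]
    ring
  have hcnt : ∀ x, |cnt (fun i : S => (bb i.1).arg) m x| ≤ D := by
    intro x
    have h1 : cnt (fun i : S => (bb i.1).arg) m x =
        (t : ℝ) * zerosBelow f x - zerosBelow g x := by
      have h2 := sumS fun w => if w ≠ 0 ∧ w.arg < x then (1 : ℝ) else 0
      rw [← card_filter_sum, ← card_filter_sum] at h2
      unfold zerosBelow
      rw [← h2]
      unfold cnt
      refine Finset.sum_congr rfl fun i _ => ?_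
      have h3 := hSm i.1 i.2
      show (if (bb i.1).arg < x then m i else 0) = _
      rw [bb_arg]
      by_cases h4 : (i.1 : ℂ).arg < x
      · rw [if_pos h4, if_pos ⟨h3, h4⟩, mul_one]
      · rw [if_neg h4, if_neg (fun h => h4 h.2), mul_zero]
    rw [h1]
    exact hD x
  have hmain := quot_main (fun i : S => bb i.1) m (fun i => bb_ne (hSm i.1 i.2))
    (fun i => bb_norm i.1) hD0 hcnt
  have hrad : ∑ i : S, |m i| * Real.log (1 / ‖bb i.1‖) ≤
      t * (f.roots.map fun w => |Real.log ‖w‖|).sum +
          (g.roots.map fun w => |Real.log ‖w‖|).sum := by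
    rw [← sum_count f.roots S hSf, ← sum_count g.roots S hSg, Finset.mul_sum,
      ← Finset.sum_add_distrib, ← Finset.sum_coe_sort S]
    refine Finset.sum_le_sum fun i _ => ?_
    rw [bb_log (hSm i.1 i.2)]
    have h1 : |m i| ≤ t * (f.roots.count i.1 : ℝ) + (g.roots.count i.1 : ℝ) := by
      rw [hm, abs_le]
      have h2 : (0 : ℝ) ≤ t * (f.roots.count i.1 : ℝ) := by positivity
      have h3 : (0 : ℝ) ≤ (g.roots.count i.1 : ℝ) := by positivity
      constructor <;> simp only <;> linarith
    have h2 := mul_le_mul_of_nonneg_right h1 (abs_nonneg (Real.log ‖(i.1 : ℂ)‖))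
    linarith
  -- the circle integrable functions
  have iG : CircleIntegrable (fun z => (g.roots.map fun w => lf (bb w) z).sum) 0 1 := by
    have h1 : (fun z => (g.roots.map fun w => lf (bb w) z).sum) =
        fun z => ∑ w ∈ g.roots.toFinset, (g.roots.count w : ℝ) * lf (bb w) z := by
      funext z
      rw [sum_count _ _ Finset.Subset.rfl]
    rw [h1]
    refine CircleIntegrable.fun_sum _ fun w _ => ?_
    exact (circ_lf (bb w)).const_fun_smul (a := (g.roots.count w : ℝ))
  have aG : Real.circleAverage (fun z => (g.roots.map fun w => lf (bb w) z).sum) 0 1 = 0 := by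
    have h1 : (fun z => (g.roots.map fun w => lf (bb w) z).sum) =
        fun z => ∑ w ∈ g.roots.toFinset, (g.roots.count w : ℝ) * lf (bb w) z := by
      funext z
      rw [sum_count _ _ Finset.Subset.rfl]
    rw [h1, Real.circleAverage_fun_sum]
    · refine Finset.sum_eq_zero fun w _ => ?_
      have := Real.circleAverage_fun_smul (a := (g.roots.count w : ℝ))
        (f := fun z => lf (bb w) z) (c := 0) (R := 1)
      have h2 : Real.circleAverage (fun z => (g.roots.count w : ℝ) * lf (bb w) z) 0 1 =
          (g.roots.count w : ℝ) * Real.circleAverage (fun z => lf (bb w) z) 0 1 := this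
      rw [h2]
      have h3 : Real.circleAverage (fun z => lf (bb w) z) 0 1 = 0 := avg_lf (bb_norm w)
      rw [h3, mul_zero]
    · intro w _
      exact (circ_lf (bb w)).const_fun_smul (a := (g.roots.count w : ℝ))
  have iQ : CircleIntegrable (fun z => max 0 (∑ i : S, m i * lf (bb i.1) z)) 0 1 := by
    refine circ_max ?_
    refine CircleIntegrable.fun_sum _ fun i _ => ?_
    exact (circ_lf (bb i.1)).const_fun_smul (a := m i)
  set C0 := max (t * f.logMahlerMeasure) g.logMahlerMeasure with hC0
  have iR : CircleIntegrable (fun z => (C0 + (g.roots.map fun w => lf (bb w) z).sum) +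
      max 0 (∑ i : S, m i * lf (bb i.1) z)) 0 1 :=
    ((circleIntegrable_const _ _ _).add iG).add iQ
  have hle : Real.circleAverage (fun z => Real.log (max (‖f.eval z‖ ^ t) ‖g.eval z‖)) 0 1 ≤
      Real.circleAverage (fun z => (C0 + (g.roots.map fun w => lf (bb w) z).sum) +
        max 0 (∑ i : S, m i * lf (bb i.1) z)) 0 1 := by
    rw [Real.circleAverage_def, Real.circleAverage_def, smul_eq_mul, smul_eq_mul]
    refine mul_le_mul_of_nonneg_left ?_ (by positivity)
    refine intervalIntegral.integral_mono_ae_restrict (by positivity) (circ_logmax f g t) iR ?_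
    have hcount : (circleMap 0 1 ⁻¹' (S : Set ℂ)).Countable :=
      (S.countable_toSet).preimage_circleMap 0 one_ne_zero
    filter_upwards [hcount.ae_notMem _] with θ hθ
    set z := circleMap 0 1 θ with hz
    have hz1 : ‖z‖ = 1 := by rw [hz]; simp
    have hfz : f.eval z ≠ 0 := by
      intro h
      apply hθ
      rw [Set.mem_preimage, ← hz, Finset.mem_coe]
      exact hSf (Multiset.mem_toFinset.mpr ((mem_roots hf0).mpr h))
    have hgz : g.eval z ≠ 0 := by
      intro h
      apply hθ
      rw [Set.mem_preimage, ← hz, Finset.mem_coe]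
      exact hSg (Multiset.mem_toFinset.mpr ((mem_roots hg0).mpr h))
    have e1 := log_eval hz1 hfz
    have e2 := log_eval hz1 hgz
    have e3 := sumS fun w => lf (bb w) z
    have p1 : 0 < ‖f.eval z‖ ^ t := by
      have := norm_pos_iff.mpr hfz
      positivity
    have p2 : 0 < ‖g.eval z‖ := norm_pos_iff.mpr hgz
    have q1 : Real.log (‖f.eval z‖ ^ t) = t * f.logMahlerMeasure +
        t * (f.roots.map fun w => lf (bb w) z).sum := by
      rw [Real.log_pow, e1]
      ring
    have r1 := le_max_left 0 (∑ i : S, m i * lf (bb i.1) z)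
    have r2 := le_max_right 0 (∑ i : S, m i * lf (bb i.1) z)
    have r3 : t * f.logMahlerMeasure ≤ C0 := le_max_left _ _
    have r4 : g.logMahlerMeasure ≤ C0 := le_max_right _ _
    rcases max_cases (‖f.eval z‖ ^ t) ‖g.eval z‖ with ⟨h1, _⟩ | ⟨h1, _⟩
    · rw [h1, q1]
      linarith
    · rw [h1, e2]
      linarith
  refine hle.trans ?_
  have j1 : CircleIntegrable (fun z => C0 + (g.roots.map fun w => lf (bb w) z).sum) 0 1 :=
    (circleIntegrable_const _ _ _).add iG
  rw [Real.circleAverage_fun_add j1 iQ, Real.circleAverage_fun_add (circleIntegrable_const _ _ _) iG,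
    aG, Real.circleAverage_const]
  linarith

end

end Pool.Agent.K3h58.ZD
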