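import Mathlib
import Pool.Agent.K3h58.ZD.Poly
import Pool.Agent.R328.PH

/-!
# Lehmer's problem and the discrepancy of zeros
-/

set_option autoImplicit false

open MeasureTheory intervalIntegral Metric Filter Topology Polynomial

namespace Pool.Agent.K3h58.ZD

noncomputable section

/-- the polynomial with complex coefficients -/
def toC (F : ℤ[X]) : ℂ[X] := F.map (Int.castRingHom ℂ)

lemma toC_ne {F : ℤ[X]} (hF : F ≠ 0) : toC F ≠ 0 :=
  (Polynomial.map_ne_zero_iff (Int.castRingHom ℂ).injective_int).mpr hF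

lemma toC_lc (F : ℤ[X]) : (toC F).leadingCoeff = ((F.leadingCoeff : ℤ) : ℂ) := by
  unfold toC
  rw [leadingCoeff_map_of_injective (Int.castRingHom ℂ).injective_int]
  rfl

lemma toC_eval0 (F : ℤ[X]) : (toC F).eval 0 = ((F.coeff 0 : ℤ) : ℂ) := by
  unfold toC
  rw [← coeff_zero_eq_eval_zero, coeff_map]
  rfl

lemma one_le_norm_int {n : ℤ} (hn : n ≠ 0) : 1 ≤ ‖(n : ℂ)‖ := by
  rw [Complex.norm_intCast]
  exact_mod_cast Int.one_le_abs hn

lemma abs_sum_eq (s : Multiset ℂ) : (s.map fun w => |Real.log ‖w‖|).sum =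
    2 * (s.map fun w => Real.posLog ‖w‖).sum - (s.map fun w => Real.log ‖w‖).sum := by
  induction s using Multiset.induction_on with
  | empty => simp
  | cons a s ih =>
    rw [Multiset.map_cons, Multiset.map_cons, Multiset.map_cons, Multiset.sum_cons,
      Multiset.sum_cons, Multiset.sum_cons, ih]
    have : |Real.log ‖a‖| = 2 * Real.posLog ‖a‖ - Real.log ‖a‖ := by
      rw [Real.posLog]
      rcases le_total 0 (Real.log ‖a‖) with h | h
      · rw [max_eq_right h, abs_of_nonneg h]; ring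
      · rw [max_eq_left h, abs_of_nonpos h]; ring
    rw [this]
    ring

lemma log_prod_eq (s : Multiset ℂ) (hs : ∀ w ∈ s, w ≠ 0) :
    Real.log ‖(s.map fun w => 0 - w).prod‖ = (s.map fun w => Real.log ‖w‖).sum ∧
      (s.map fun w => 0 - w).prod ≠ 0 := by
  induction s using Multiset.induction_on with
  | empty => simp
  | cons a s ih =>
    obtain ⟨h1, h2⟩ := ih fun w hw => hs w (Multiset.mem_cons_of_mem hw)
    have h3 := hs a (Multiset.mem_cons_self _ _)
    have h4 : (0 : ℂ) - a ≠ 0 := by rw [zero_sub]; exact neg_ne_zero.mpr h3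
    rw [Multiset.map_cons, Multiset.map_cons, Multiset.prod_cons, Multiset.sum_cons, norm_mul,
      Real.log_mul (norm_ne_zero_iff.mpr h4) (norm_ne_zero_iff.mpr h2), h1]
    refine ⟨?_, mul_ne_zero h4 h2⟩
    rw [zero_sub, norm_neg]

lemma int_abs {F : ℤ[X]} (hF : F.coeff 0 ≠ 0) :
    ((toC F).roots.map fun w => |Real.log ‖w‖|).sum ≤ 2 * (toC F).logMahlerMeasure ∧
      0 ≤ (toC F).logMahlerMeasure := by
  have hF0 : F ≠ 0 := by
    rintro rfl
    simp at hF
  have hC0 := toC_ne hF0
  have hlc : 0 ≤ Real.log ‖(toC F).leadingCoeff‖ := by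
    rw [toC_lc]
    exact Real.log_nonneg (one_le_norm_int (leadingCoeff_ne_zero.mpr hF0))
  have h0 : 0 ≤ Real.log ‖(toC F).eval 0‖ := by
    rw [toC_eval0]
    exact Real.log_nonneg (one_le_norm_int hF)
  have he0 : (toC F).eval 0 ≠ 0 := by
    rw [toC_eval0]
    exact_mod_cast hF
  have hroot : ∀ w ∈ (toC F).roots, w ≠ 0 := by
    rintro w hw rfl
    exact he0 (isRoot_of_mem_roots hw)
  obtain ⟨h1, h2⟩ := log_prod_eq (toC F).roots hroot
  have h3 : Real.log ‖(toC F).eval 0‖ = Real.log ‖(toC F).leadingCoeff‖ +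
      ((toC F).roots.map fun w => Real.log ‖w‖).sum := by
    have h4 := (IsAlgClosed.splits (toC F)).eq_prod_roots
    have h5 : (toC F).eval 0 = (toC F).leadingCoeff * ((toC F).roots.map fun w => 0 - w).prod := by
      conv_lhs => rw [h4]
      rw [eval_mul, eval_C, eval_multiset_prod, Multiset.map_map]
      congr 2
      refine Multiset.map_congr rfl fun w _ => ?_
      simp
    rw [h5, norm_mul, Real.log_mul (norm_ne_zero_iff.mpr (leadingCoeff_ne_zero.mpr hC0))
      (norm_ne_zero_iff.mpr h2), h1]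
  have h6 := logMahlerMeasure_eq_log_leadingCoeff_add_sum_log_roots (toC F)
  have h7 : 0 ≤ ((toC F).roots.map fun w => Real.posLog ‖w‖).sum := by
    refine Multiset.sum_nonneg fun x hx => ?_
    obtain ⟨w, _, rfl⟩ := Multiset.mem_map.mp hx
    exact Real.posLog_nonneg
  rw [abs_sum_eq]
  have h8 : ((toC F).roots.map fun w => Real.posLog ‖w‖).sum =
      (toC F).logMahlerMeasure - Real.log ‖(toC F).leadingCoeff‖ := by
    rw [h6]
    ring
  rw [h8] at h7 ⊢
  constructor <;> linarith

lemma eval_toC (F : ℤ[X]) (z : ℂ) : (toC F).eval z = aeval z F := by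
  unfold toC
  rw [eval_map, aeval_def]
  rfl

lemma zb_le (f : ℂ[X]) (x : ℝ) : zerosBelow f x ≤ f.natDegree := by
  unfold zerosBelow
  exact (Multiset.card_le_card (Multiset.filter_le _ _)).trans (card_roots' f)

lemma zb_top {f : ℂ[X]} (hf : f.eval 0 ≠ 0) : zerosBelow f 4 = f.natDegree := by
  unfold zerosBelow
  rw [Multiset.filter_eq_self.mpr, (IsAlgClosed.splits f).natDegree_eq_card_roots]
  intro w hw
  refine ⟨?_, ?_⟩
  · rintro rfl
    exact hf (isRoot_of_mem_roots hw)
  · have := Complex.arg_le_pi w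
    linarith [Real.pi_lt_four]

lemma natDegree_toC (F : ℤ[X]) : (toC F).natDegree = F.natDegree :=
  natDegree_map_eq_of_injective (Int.castRingHom ℂ).injective_int F

lemma zb_mul_X_pow (k : ℕ) (g : ℂ[X]) (hg : g ≠ 0) (x : ℝ) :
    zerosBelow (X ^ k * g) x = zerosBelow g x := by
  unfold zerosBelow
  rw [roots_mul (mul_ne_zero (pow_ne_zero _ X_ne_zero) hg), roots_X_pow, Multiset.filter_add,
    Multiset.card_add]
  have : (Multiset.filter (fun w : ℂ => w ≠ 0 ∧ w.arg < x) (k • ({0} : Multiset ℂ))) = 0 := by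
    rw [Multiset.filter_eq_nil]
    intro a ha
    rw [Multiset.mem_nsmul] at ha
    have h1 := ha.2
    rw [Multiset.mem_singleton] at h1
    rw [h1]
    simp
  rw [this]
  simp

lemma mm_X_pow (k : ℕ) : (X ^ k : ℂ[X]).mahlerMeasure = 1 := by
  have h5 : (X : ℂ[X]).mahlerMeasure = 1 := by
    have := mahlerMeasure_X_sub_C 0
    simpa using this
  induction k with
  | zero => simp
  | succ k ih => rw [pow_succ, mahlerMeasure_mul, ih, h5, one_mul]

open Pool.Agent.H388SL in
/-- **Main theorem.** -/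
theorem main : ∃ c : ℝ, 0 < c ∧ ∀ (f g : ℤ[X]) (t : ℕ) (Δ : ℝ), 0 < t → Irreducible f →
    1 < (toC f).mahlerMeasure → ¬ f ∣ g →
    (∀ x : ℝ, |(t : ℝ) * zerosBelow (toC f) x - zerosBelow (toC g) x| ≤ Δ) →
    c / (1 + (Δ + Real.log (toC g).mahlerMeasure) / t) ^ 3 ≤ Real.log (toC f).mahlerMeasure := by
  obtain ⟨c, hc, hpair⟩ := Pool.Agent.R328.pair_main
  refine ⟨min (1 / 2) (c / 54 ^ 3), lt_min (by norm_num) (by positivity), ?_⟩
  intro f g t Δ ht hf hM hfg hΔ
  have ht' : (1 : ℝ) ≤ t := by exact_mod_cast ht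
  have hΔ0 : 0 ≤ Δ := (abs_nonneg _).trans (hΔ 0)
  -- `f` has a nonzero constant coefficient
  have hf0 : f ≠ 0 := hf.ne_zero
  have hc0 : f.coeff 0 ≠ 0 := by
    intro h
    have h1 : (X : ℤ[X]) ∣ f := X_dvd_iff.mpr h
    have h2 : Associated (X : ℤ[X]) f := (prime_X.irreducible).associated_of_dvd hf h1
    obtain ⟨u, hu⟩ := h2
    have h3 : (toC f) = toC X * toC (u : ℤ[X]) := by
      rw [← hu]
      unfold toC
      rw [Polynomial.map_mul]
    obtain ⟨a, ha, ha'⟩ := Polynomial.isUnit_iff.mp u.isUnit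
    have h4 : (toC f).mahlerMeasure = 1 := by
      rw [h3, mahlerMeasure_mul]
      unfold toC
      rw [← ha', Polynomial.map_X, Polynomial.map_C, mahlerMeasure_const]
      have h5 : (X : ℂ[X]).mahlerMeasure = 1 := by
        have := mahlerMeasure_X_sub_C 0
        simpa using this
      rw [h5, one_mul]
      rcases Int.isUnit_iff.mp ha with h6 | h6 <;> rw [h6] <;> simp
    linarith
  -- remove the zeros at the origin of `g`
  have hg0 : g ≠ 0 := by
    rintro rfl
    exact hfg (dvd_zero _)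
  obtain ⟨g1, hg1, hg2⟩ := exists_eq_pow_rootMultiplicity_mul_and_not_dvd g hg0 0
  rw [C_0, sub_zero] at hg1 hg2
  set k := rootMultiplicity 0 g
  have hg10 : g1 ≠ 0 := by
    rintro rfl
    exact hg2 (dvd_zero _)
  have hgc : g1.coeff 0 ≠ 0 := fun h => hg2 (X_dvd_iff.mpr h)
  have htoC : toC g = X ^ k * toC g1 := by
    conv_lhs => rw [hg1]
    unfold toC
    rw [Polynomial.map_mul, Polynomial.map_pow, Polynomial.map_X]
  have hMg : (toC g).mahlerMeasure = (toC g1).mahlerMeasure := by
    rw [htoC, mahlerMeasure_mul]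
    rw [mm_X_pow, one_mul]
  have hZg : ∀ x, zerosBelow (toC g) x = zerosBelow (toC g1) x := by
    intro x
    rw [htoC, zb_mul_X_pow _ _ (toC_ne hg10)]
  have hfg1 : ¬ f ∣ g1 := by
    intro h
    apply hfg
    rw [hg1]
    exact dvd_mul_of_dvd_right h _
  simp_rw [hZg] at hΔ
  rw [hMg]
  have ef : (toC f).eval 0 ≠ 0 := by
    rw [toC_eval0]
    exact_mod_cast hc0
  have eg : (toC g1).eval 0 ≠ 0 := by
    rw [toC_eval0]
    exact_mod_cast hgc
  obtain ⟨af, mf⟩ := int_abs hc0
  obtain ⟨ag, mg⟩ := int_abs hgc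
  rw [logMahlerMeasure_eq_log_MahlerMeasure] at af ag mf mg
  set Lf := Real.log (toC f).mahlerMeasure with hLf
  set Lg := Real.log (toC g1).mahlerMeasure with hLg
  have hLf0 : 0 < Lf := Real.log_pos hM
  set A := (Δ + Lg) / t with hA
  have hA0 : 0 ≤ A := by rw [hA]; positivity
  -- large measure
  have hhalf : min (1 / 2) (c / 54 ^ 3) / (1 + A) ^ 3 ≤ 1 / 2 := by
    rw [div_le_iff₀ (by positivity)]
    have : (1 : ℝ) ≤ (1 + A) ^ 3 := one_le_pow₀ (by linarith)
    exact (min_le_left _ _).trans (by linarith)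
  rcases lt_or_ge 1 Lf with hbig | hsmall
  · linarith
  rcases Nat.eq_zero_or_pos f.natDegree with hn0 | hn1
  · obtain ⟨a, ha⟩ := natDegree_eq_zero.mp hn0
    have h1 : (toC f).mahlerMeasure = ‖(a : ℂ)‖ := by
      rw [← ha]
      unfold toC
      rw [Polynomial.map_C, mahlerMeasure_const]
      rfl
    rw [h1, Complex.norm_intCast] at hM
    have h2 : 1 < |a| := by exact_mod_cast hM
    have h3 : (2 : ℤ) ≤ |a| := by omega
    have h4 : (2 : ℝ) ≤ |(a : ℝ)| := by exact_mod_cast h3
    have h5 : Real.log 2 ≤ Lf := by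
      rw [hLf, h1, Complex.norm_intCast]
      exact Real.log_le_log (by norm_num) h4
    have := Real.log_two_gt_d9
    linarith
  have hn1' : (1 : ℝ) ≤ f.natDegree := by exact_mod_cast hn1
  have hM' : 1 < MM f := hM
  have hPM : ∀ (G : ℤ[X]) (s : ℕ), Real.circleAverage (Pool.Agent.R328.PM f G s) 0 1 =
      Real.circleAverage (fun z => Real.log (max (‖(toC f).eval z‖ ^ s) ‖(toC G).eval z‖)) 0 1 := by
    intro G s
    unfold Pool.Agent.R328.PM
    simp_rw [eval_toC]
  have hnonneg : ∀ (G : ℤ[X]) (s : ℕ), 0 ≤ Real.circleAverage (Pool.Agent.R328.PM f G s) 0 1 :=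
    fun G s => Pool.Agent.R328.PM_nonneg hf0 hM'.le G s
  rcases le_or_gt A f.natDegree with hcase | hcase
  · -- the pair `(f ^ t, g1)`
    have h1 := hpair f g1 t ht hf hfg1 hM'
    have h2 := pair_est (toC f) (toC g1) ef eg t (D := Δ + 1) (by linarith)
      (fun x => (hΔ x).trans (by linarith))
    rw [← hPM, logMahlerMeasure_eq_log_MahlerMeasure, logMahlerMeasure_eq_log_MahlerMeasure] at h2
    have h0 := hnonneg g1 t
    set K := Real.circleAverage (Pool.Agent.R328.PM f g1 t) 0 1 with hK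
    have h3 : K ≤ 5 * t * Lf + 5 * Lg + 12 * (Δ + 1) := by
      have h4 : max ((t : ℝ) * Lf) Lg ≤ t * Lf + Lg :=
        max_le (by linarith) (by nlinarith)
      have h5 := mul_le_mul_of_nonneg_left af (show (0:ℝ) ≤ t by linarith)
      rw [← hLf, ← hLg] at h2
      nlinarith
    have h4 : K / t ≤ 17 + 12 * A := by
      rw [div_le_iff₀ (by linarith), hA]
      have h5 : (17 + 12 * ((Δ + Lg) / t)) * t = 17 * t + 12 * (Δ + Lg) := by
        field_simp
      rw [h5]
      nlinarith
    have h5 : (g1.natDegree : ℝ) / (t * f.natDegree) ≤ 2 := by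
      have h6 := hΔ 4
      rw [zb_top ef, zb_top eg, natDegree_toC, natDegree_toC] at h6
      have h7 := (abs_le.mp h6).1
      rw [div_le_iff₀ (by positivity)]
      have h8 : Δ ≤ f.natDegree * t := by
        have h9 : Δ + Lg ≤ f.natDegree * t := by
          rw [hA, div_le_iff₀ (by linarith)] at hcase
          exact hcase
        linarith
      nlinarith
    have h6 : (1 + (g1.natDegree : ℝ) / (t * f.natDegree)) * (1 + K / t) ≤ 54 * (1 + A) := by
      have h7 : 0 ≤ (g1.natDegree : ℝ) / (t * f.natDegree) := by positivity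
      have h8 : 0 ≤ K / t := by positivity
      nlinarith
    refine le_trans ?_ h1
    have h7 : 0 < (1 + (g1.natDegree : ℝ) / (t * f.natDegree)) * (1 + K / t) := by
      have h7 : 0 ≤ (g1.natDegree : ℝ) / (t * f.natDegree) := by positivity
      have h8 : 0 ≤ K / t := by positivity
      positivity
    have h8 : min (1 / 2) (c / 54 ^ 3) ≤ c / 54 ^ 3 := min_le_right _ _
    calc min (1 / 2) (c / 54 ^ 3) / (1 + A) ^ 3 ≤ (c / 54 ^ 3) / (1 + A) ^ 3 := by gcongr
      _ = c / (54 * (1 + A)) ^ 3 := by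
          rw [mul_pow]
          field_simp
      _ ≤ c / ((1 + (g1.natDegree : ℝ) / (t * f.natDegree)) * (1 + K / t)) ^ 3 := by
          gcongr
  · -- the trivial bound
    have hf1 : ¬ f ∣ (1 : ℤ[X]) := fun h => hf.not_isUnit (isUnit_of_dvd_one h)
    have h1 := hpair f 1 1 one_pos hf hf1 hM'
    have h2 := pair_est (toC f) (toC 1) ef (by unfold toC; simp) 1 (D := f.natDegree)
      (by linarith) (fun x => by
        have h3 : zerosBelow (toC 1) x = 0 := by
          have := zb_le (toC 1) x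
          rw [natDegree_toC, natDegree_one] at this
          omega
        rw [h3]
        have h4 := zb_le (toC f) x
        rw [natDegree_toC] at h4
        have h5 : (zerosBelow (toC f) x : ℝ) ≤ f.natDegree := by exact_mod_cast h4
        have h6 : ((1 : ℕ) : ℝ) * (zerosBelow (toC f) x : ℝ) - ((0 : ℕ) : ℝ) =
            zerosBelow (toC f) x := by
          push_cast
          ring
        rw [h6, abs_of_nonneg (by positivity)]
        exact h5)
    rw [← hPM, logMahlerMeasure_eq_log_MahlerMeasure, logMahlerMeasure_eq_log_MahlerMeasure] at h2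
    have h0 := hnonneg 1 1
    set K := Real.circleAverage (Pool.Agent.R328.PM f 1 1) 0 1 with hK
    have h3 : K ≤ 5 + 12 * f.natDegree := by
      have h4 : (toC 1).mahlerMeasure = 1 := by unfold toC; simp
      have h5 : (toC (1 : ℤ[X])).roots = 0 := by unfold toC; simp
      rw [h4, h5, Real.log_one, ← hLf] at h2
      simp only [Nat.cast_one, one_mul, Multiset.map_zero, Multiset.sum_zero, add_zero] at h2
      rw [max_eq_left mf] at h2
      linarith
    refine le_trans ?_ h1
    rw [natDegree_one]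
    have h6 : (1 + ((0 : ℕ) : ℝ) / (((1 : ℕ) : ℝ) * f.natDegree)) * (1 + K / ((1 : ℕ) : ℝ)) ≤
        54 * (1 + A) := by
      push_cast
      rw [zero_div, add_zero, one_mul, div_one]
      nlinarith
    have h7 : 0 < (1 + ((0 : ℕ) : ℝ) / (((1 : ℕ) : ℝ) * f.natDegree)) *
        (1 + K / ((1 : ℕ) : ℝ)) := by
      push_cast
      rw [zero_div, add_zero, one_mul, div_one]
      linarith
    calc min (1 / 2) (c / 54 ^ 3) / (1 + A) ^ 3 ≤ (c / 54 ^ 3) / (1 + A) ^ 3 := by
          have := min_le_right (1 / 2 : ℝ) (c / 54 ^ 3)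
          gcongr
      _ = c / (54 * (1 + A)) ^ 3 := by
          rw [mul_pow]
          field_simp
      _ ≤ _ := by gcongr

end

end Pool.Agent.K3h58.ZD
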